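import Mathlib

/-!
The Frechet-Urysohn property for finite sets.
-/

namespace Pool.Agent.FUF

open Filter Topology

/-- A filter `𝓕` on `X` is Frechet-Urysohn for finite sets: for every family `𝒮` of finite subsets
of `X` such that every member of `𝓕` contains a member of `𝒮`, there is a sequence of members of
`𝒮` such that every member of `𝓕` contains all but finitely many of them. -/
def FUFFilter {X : Type*} (𝓕 : Filter X) : Prop :=
  ∀ 𝒮 : Set (Finset X), (∀ U ∈ 𝓕, ∃ A ∈ 𝒮, (A : Set X) ⊆ U) →
    ∃ a : ℕ → Finset X, (∀ n, a n ∈ 𝒮) ∧ ∀ U ∈ 𝓕, ∀ᶠ n in atTop, (a n : Set X) ⊆ U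

/-- A topological space is Frechet-Urysohn for finite sets if all its neighbourhood filters are. -/
def IsFUF (X : Type*) [TopologicalSpace X] : Prop := ∀ x : X, FUFFilter (𝓝 x)

end Pool.Agent.FUF
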