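import Mathlib

/-!
A proper length function on a countable group and finiteness of sets of products of short lists.
-/

namespace Pool.Agent.FUF

open Set

/-- Products of lists of length at most `N` with entries in `A`. -/
def shortProds {H : Type*} [Monoid H] (A : Set H) (N : ℕ) : Set H :=
  {x | ∃ L : List H, L.length ≤ N ∧ (∀ y ∈ L, y ∈ A) ∧ L.prod = x}

theorem shortProds_finite {H : Type*} [Monoid H] {A : Set H} (hA : A.Finite) (N : ℕ) :
    (shortProds A N).Finite := by
  have : Finite A := hA
  have h := (List.finite_length_le A N).image (fun L : List A => (L.map Subtype.val).prod)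
  refine h.subset ?_
  rintro x ⟨L, hL, hLA, rfl⟩
  refine ⟨L.attach.map (fun y => ⟨y.1, hLA y.1 y.2⟩), ?_, ?_⟩
  · simpa using hL
  · simp [List.map_map, Function.comp_def]

/-- The word length of `h` with respect to the weight `e x + 1` of the letter `x`. -/
noncomputable def len {H : Type*} [Monoid H] (e : H → ℕ) (h : H) : ℕ :=
  sInf {s | ∃ L : List H, L.prod = h ∧ (L.map (fun x => e x + 1)).sum = s}

theorem len_mem {H : Type*} [Monoid H] (e : H → ℕ) (h : H) :
    ∃ L : List H, L.prod = h ∧ (L.map (fun x => e x + 1)).sum = len e h :=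
  Nat.sInf_mem (s := {s | ∃ L : List H, L.prod = h ∧ (L.map (fun x => e x + 1)).sum = s})
    ⟨_, [h], by simp, rfl⟩

theorem len_mul_le {H : Type*} [Monoid H] (e : H → ℕ) (g h : H) :
    len e (g * h) ≤ len e g + len e h := by
  obtain ⟨L, hL, hs⟩ := len_mem e g
  obtain ⟨L', hL', hs'⟩ := len_mem e h
  refine Nat.sInf_le ⟨L ++ L', by simp [hL, hL'], ?_⟩
  rw [List.map_append, List.sum_append, hs, hs']

theorem len_finite {H : Type*} [Monoid H] (e : H → ℕ) (he : Function.Injective e) (N : ℕ) :
    {h : H | len e h ≤ N}.Finite := by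
  have hA : {x : H | e x ≤ N}.Finite := (Set.finite_Iic N).preimage he.injOn
  refine (shortProds_finite hA N).subset ?_
  intro h hh
  obtain ⟨L, hL, hs⟩ := len_mem e h
  have hsum : (L.map (fun x => e x + 1)).sum ≤ N := by rw [hs]; exact hh
  refine ⟨L, ?_, ?_, hL⟩
  · refine le_trans ?_ hsum
    clear hL hs hsum
    induction L with
    | nil => simp
    | cons a L ih => simp only [List.length_cons, List.map_cons, List.sum_cons]; omega
  · intro y hy
    have h1 : e y + 1 ≤ (L.map (fun x => e x + 1)).sum :=
      List.single_le_sum (by simp) _ (List.mem_map.2 ⟨y, hy, rfl⟩)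
    show e y ≤ N
    omega

/-- On a countable group there is a submultiplicative function with values `≥ 1` and finite
sublevel sets. -/
theorem exists_weight (H : Type*) [Monoid H] [Countable H] :
    ∃ ℓ : H → ℕ, (∀ g h, ℓ (g * h) ≤ ℓ g + ℓ h) ∧ ∀ N, {h : H | ℓ h ≤ N}.Finite := by
  obtain ⟨e, he⟩ := exists_injective_nat H
  exact ⟨len e, len_mul_le e, len_finite e he⟩

end Pool.Agent.FUF
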