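import Pool.Agent.FUF.Length

/-!
Choice of a fast sequence in a non-discrete Hausdorff group.
-/

namespace Pool.Agent.FUF

open Set Filter Topology Pointwise

theorem shortProds_mono {H : Type*} [Monoid H] {A B : Set H} (h : A ⊆ B) (N : ℕ) :
    shortProds A N ⊆ shortProds B N := by
  rintro x ⟨L, hL, hLA, rfl⟩
  exact ⟨L, hL, fun y hy => h (hLA y hy), rfl⟩

theorem exists_nhds_shortProds {H : Type*} [Group H] [TopologicalSpace H] [IsTopologicalGroup H]
    (N : ℕ) : ∀ V ∈ 𝓝 (1 : H), ∃ U ∈ 𝓝 (1 : H), shortProds U N ⊆ V := by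
  induction N with
  | zero =>
    intro V hV
    refine ⟨univ, univ_mem, ?_⟩
    rintro x ⟨L, hL, -, rfl⟩
    have : L = [] := List.eq_nil_of_length_eq_zero (by omega)
    subst this
    simpa using mem_of_mem_nhds hV
  | succ N ih =>
    intro V hV
    obtain ⟨V', hV', hVV⟩ := exists_nhds_one_split hV
    obtain ⟨U, hU, hUV⟩ := ih V' hV'
    refine ⟨U ∩ V', inter_mem hU hV', ?_⟩
    rintro x ⟨L, hL, hLU, rfl⟩
    cases L with
    | nil => simpa using mem_of_mem_nhds hV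
    | cons a L =>
      rw [List.prod_cons]
      refine hVV a ((hLU a (by simp)).2) _ (hUV ⟨L, ?_, ?_, rfl⟩)
      · simp only [List.length_cons] at hL
        omega
      · intro y hy
        exact (hLU y (by simp [hy])).1

/-- Conjugates of `y` and `y⁻¹` by elements of `C`. -/
def conjSet {H : Type*} [Group H] (C : Set H) (y : H) : Set H :=
  {x | ∃ c ∈ C, x = c * y * c⁻¹ ∨ x = c * y⁻¹ * c⁻¹}

theorem conjSet_finite {H : Type*} [Group H] {C : Set H} (hC : C.Finite) (y : H) :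
    (conjSet C y).Finite := by
  refine ((hC.image (fun c => c * y * c⁻¹)).union (hC.image (fun c => c * y⁻¹ * c⁻¹))).subset ?_
  rintro x ⟨c, hc, rfl | rfl⟩
  · exact Or.inl ⟨c, hc, rfl⟩
  · exact Or.inr ⟨c, hc, rfl⟩

theorem exists_small {H : Type*} [Group H] [TopologicalSpace H] [IsTopologicalGroup H]
    [T2Space H] (hnd : ¬ DiscreteTopology H) {C Q V : Set H} (hC : C.Finite) (hQ : Q.Finite)
    (hV : V ∈ 𝓝 (1 : H)) (N : ℕ) : ∃ y : H, y ∉ Q ∧ shortProds (conjSet C y) N ⊆ V := by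
  obtain ⟨U, hU, hUV⟩ := exists_nhds_shortProds N V hV
  have hne : (𝓝[≠] (1 : H)).NeBot := by
    by_contra hcon
    rw [not_neBot] at hcon
    exact hnd (discreteTopology_of_isOpen_singleton_one
      (isOpen_singleton_iff_punctured_nhds _ |>.2 hcon))
  have h1 : ∀ᶠ y in 𝓝[≠] (1 : H), ∀ c ∈ C, c * y * c⁻¹ ∈ U ∧ c * y⁻¹ * c⁻¹ ∈ U := by
    apply mem_nhdsWithin_of_mem_nhds
    refine (eventually_all_finite hC).2 fun c _ => ?_
    have e1 : Tendsto (fun y : H => c * y * c⁻¹) (𝓝 1) (𝓝 1) := by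
      have : Continuous (fun y : H => c * y * c⁻¹) := by fun_prop
      simpa using this.tendsto 1
    have e2 : Tendsto (fun y : H => c * y⁻¹ * c⁻¹) (𝓝 1) (𝓝 1) := by
      have : Continuous (fun y : H => c * y⁻¹ * c⁻¹) := by fun_prop
      simpa using this.tendsto 1
    exact (e1.eventually hU).and (e2.eventually hU)
  have h2 : ∀ᶠ y in 𝓝[≠] (1 : H), y ∉ Q := by
    have h3 : (Q \ {1})ᶜ ∈ 𝓝 (1 : H) := by
      apply IsOpen.mem_nhds
      · exact (hQ.subset sdiff_subset).isClosed.isOpen_compl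
      · simp
    filter_upwards [mem_nhdsWithin_of_mem_nhds h3, self_mem_nhdsWithin] with y hy hy1 hyQ
    exact hy ⟨hyQ, hy1⟩
  obtain ⟨y, hy1, hy2⟩ := (h1.and h2).exists
  refine ⟨y, hy2, (shortProds_mono ?_ N).trans hUV⟩
  rintro x ⟨c, hc, rfl | rfl⟩
  · exact (hy1 c hc).1
  · exact (hy1 c hc).2

/-- Dependent choice. -/
theorem dep_choice {S : Type*} (P : ℕ → S → Prop) (R : ℕ → S → S → Prop)
    (h0 : ∃ s, P 0 s) (h : ∀ n s, P n s → ∃ s', P (n + 1) s' ∧ R n s s') :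
    ∃ f : ℕ → S, (∀ n, P n (f n)) ∧ ∀ n, R n (f n) (f (n + 1)) := by
  obtain ⟨s0, hs0⟩ := h0
  choose! F hF1 hF2 using h
  let f : ℕ → S := fun n => Nat.rec s0 (fun n s => F n s) n
  have hP : ∀ n, P n (f n) := by
    intro n
    induction n with
    | zero => exact hs0
    | succ n ih => exact hF1 n _ ih
  exact ⟨f, hP, fun n => hF2 n _ (hP n)⟩

/-- The finite set of products of at most `2 ^ n` conjugates of the elements of `G` by elements
of length at most `n`. -/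
def Qset {H : Type*} [Group H] (ℓ : H → ℕ) (G : Set H) (n : ℕ) : Set H :=
  shortProds (⋃ y ∈ G, conjSet {h | ℓ h ≤ n} y) (2 ^ n)

theorem Qset_finite {H : Type*} [Group H] {ℓ : H → ℕ} (hℓ : ∀ N, {h : H | ℓ h ≤ N}.Finite)
    {G : Set H} (hG : G.Finite) (n : ℕ) : (Qset ℓ G n).Finite :=
  shortProds_finite (hG.biUnion fun y _ => conjSet_finite (hℓ n) y) _

/-- The conjugators used at step `n`. -/
def Cset {H : Type*} [Group H] (ℓ : H → ℕ) (G : Set H) (n : ℕ) : Set H :=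
  (fun p : H × H => p.1⁻¹ * p.2) '' (Qset ℓ G n ×ˢ {h | ℓ h ≤ n})

theorem Cset_finite {H : Type*} [Group H] {ℓ : H → ℕ} (hℓ : ∀ N, {h : H | ℓ h ≤ N}.Finite)
    {G : Set H} (hG : G.Finite) (n : ℕ) : (Cset ℓ G n).Finite :=
  ((Qset_finite hℓ hG n).prod (hℓ n)).image _

/-- The properties of a fast sequence `g` and the accompanying neighbourhoods `V`. -/
structure Fast {H : Type*} [Group H] (ℓ : H → ℕ) (U : ℕ → Set H) (g : ℕ → H) (V : ℕ → Set H) :
    Prop where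
  one_mem : ∀ n, (1 : H) ∈ V n
  step : ∀ n, V (n + 1) * V (n + 1) ⊆ V n ∩ U n
  small : ∀ n, shortProds (conjSet (Cset ℓ (g '' Iio n) n) (g n)) (2 ^ n) ⊆ V n
  avoid : ∀ n, g n ∉ Qset ℓ (g '' Iio n) n
  sep : ∀ n, ∀ q ∈ Qset ℓ (g '' Iio n) n, q⁻¹ * g n ∉ V (n + 1) * V (n + 1)

theorem exists_fast {H : Type*} [Group H] [TopologicalSpace H] [IsTopologicalGroup H]
    [T2Space H] (hnd : ¬ DiscreteTopology H) {ℓ : H → ℕ} (hℓ : ∀ N, {h : H | ℓ h ≤ N}.Finite)
    (U : ℕ → Set H) (hU : ∀ n, U n ∈ 𝓝 (1 : H)) :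
    ∃ g V, Fast ℓ U g V := by
  classical
  have key := dep_choice (S := Finset H × Set H × H)
    (fun n s => s.2.1 ∈ 𝓝 (1 : H) ∧
      shortProds (conjSet (Cset ℓ (s.1 : Set H) n) s.2.2) (2 ^ n) ⊆ s.2.1 ∧
      s.2.2 ∉ Qset ℓ (s.1 : Set H) n ∧ (n = 0 → s.1 = ∅))
    (fun n s s' => s'.1 = insert s.2.2 s.1 ∧ s'.2.1 * s'.2.1 ⊆ s.2.1 ∩ U n ∧
      ∀ q ∈ Qset ℓ (s.1 : Set H) n, q⁻¹ * s.2.2 ∉ s'.2.1 * s'.2.1) ?_ ?_
  · obtain ⟨f, hP, hR⟩ := key
    have hG : ∀ n, ((f n).1 : Set H) = (fun n => (f n).2.2) '' Iio n := by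
      intro n
      induction n with
      | zero => simp [(hP 0).2.2.2 rfl]
      | succ n ih =>
        rw [(hR n).1, Finset.coe_insert, ih]
        ext x
        simp only [mem_insert_iff, mem_image, mem_Iio]
        constructor
        · rintro (rfl | ⟨k, hk, rfl⟩)
          · exact ⟨n, by omega, rfl⟩
          · exact ⟨k, by omega, rfl⟩
        · rintro ⟨k, hk, rfl⟩
          rcases Nat.lt_succ_iff_lt_or_eq.1 hk with h | h
          · exact Or.inr ⟨k, h, rfl⟩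
          · subst h; exact Or.inl rfl
    refine ⟨fun n => (f n).2.2, fun n => (f n).2.1, ?_, ?_, ?_, ?_, ?_⟩
    · intro n; exact mem_of_mem_nhds (hP n).1
    · intro n; exact (hR n).2.1
    · intro n; rw [← hG n]; exact (hP n).2.1
    · intro n; rw [← hG n]; exact (hP n).2.2.1
    · intro n; rw [← hG n]; exact (hR n).2.2
  · obtain ⟨y, hy1, hy2⟩ := exists_small hnd
      (Cset_finite hℓ (G := ((∅ : Finset H) : Set H)) (Finset.finite_toSet _) 0)
      (Qset_finite hℓ (G := ((∅ : Finset H) : Set H)) (Finset.finite_toSet _) 0)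
      (univ_mem (f := 𝓝 (1 : H))) (2 ^ 0)
    exact ⟨(∅, univ, y), univ_mem, hy2, hy1, fun _ => rfl⟩
  · rintro n ⟨G, V, y⟩ ⟨hV, h1, h2, -⟩
    simp only at hV h1 h2
    have hQf := Qset_finite hℓ (G := (G : Set H)) (Finset.finite_toSet _) n
    have hbad : ((fun q => q⁻¹ * y) '' Qset ℓ (G : Set H) n)ᶜ ∈ 𝓝 (1 : H) := by
      apply IsOpen.mem_nhds
      · exact (hQf.image _).isClosed.isOpen_compl
      · rintro ⟨q, hq, hq1⟩
        have : y = q := by
          have h3 : q⁻¹ * y = 1 := hq1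
          rwa [inv_mul_eq_one, eq_comm] at h3
        exact h2 (this ▸ hq)
    obtain ⟨V', hV', hVV⟩ := exists_nhds_one_split (inter_mem (inter_mem hV (hU n)) hbad)
    have hVV' : V' * V' ⊆ (V ∩ U n) ∩ ((fun q => q⁻¹ * y) '' Qset ℓ (G : Set H) n)ᶜ := by
      rintro _ ⟨a, ha, b, hb, rfl⟩
      exact hVV a ha b hb
    obtain ⟨y', hy1, hy2⟩ := exists_small hnd
      (Cset_finite hℓ (G := ((insert y G : Finset H) : Set H)) (Finset.finite_toSet _) (n + 1))
      (Qset_finite hℓ (G := ((insert y G : Finset H) : Set H)) (Finset.finite_toSet _) (n + 1))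
      hV' (2 ^ (n + 1))
    refine ⟨(insert y G, V', y'), ⟨hV', hy2, hy1, fun h => by omega⟩, rfl,
      fun x hx => (hVV' hx).1, fun q hq hcon => (hVV' hcon).2 ⟨q, hq, rfl⟩⟩

end Pool.Agent.FUF
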