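import Pool.Agent.FUF.Words
import Pool.Agent.FUF.Defs

/-!
The group topology built from a filter and a fast sequence.
-/

namespace Pool.Agent.FUF

open Set Filter Topology Pointwise

/-! ### General facts on FUF filters -/

theorem FUFFilter.map {X Y : Type*} {𝓕 : Filter X} (h : FUFFilter 𝓕) {e : X → Y}
    (he : Function.Injective e) : FUFFilter (𝓕.map e) := by
  classical
  intro 𝒮 h𝒮
  obtain ⟨a, ha, haU⟩ := h {A | A.map ⟨e, he⟩ ∈ 𝒮} (by
    intro U hU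
    obtain ⟨A, hA, hAU⟩ := h𝒮 (e '' U) (image_mem_map hU)
    refine ⟨A.preimage e he.injOn, ?_, ?_⟩
    · show (A.preimage e he.injOn).map ⟨e, he⟩ ∈ 𝒮
      have : (A.preimage e he.injOn).map ⟨e, he⟩ = A := by
        ext y
        simp only [Finset.mem_map, Finset.mem_preimage, Function.Embedding.coeFn_mk]
        constructor
        · rintro ⟨x, hx, rfl⟩; exact hx
        · intro hy
          obtain ⟨x, -, rfl⟩ := hAU hy
          exact ⟨x, hy, rfl⟩
      rw [this]; exact hA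
    · intro x hx
      have h1 : e x ∈ (A : Set Y) := by simpa using hx
      obtain ⟨x', hx', hxx⟩ := hAU h1
      exact he hxx ▸ hx')
  refine ⟨fun n => (a n).map ⟨e, he⟩, ha, fun U hU => ?_⟩
  filter_upwards [haU (e ⁻¹' U) hU] with n hn
  intro y hy
  simp only [Finset.coe_map, Function.Embedding.coeFn_mk, mem_image, Finset.mem_coe] at hy
  obtain ⟨x, hx, rfl⟩ := hy
  exact hn hx

theorem FUFFilter.exists_seq {X : Type*} {𝓕 : Filter X} (h : FUFFilter 𝓕) {s : Set X}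
    (hs : ∀ U ∈ 𝓕, (U ∩ s).Nonempty) : ∃ t : ℕ → X, (∀ n, t n ∈ s) ∧ Tendsto t atTop 𝓕 := by
  classical
  obtain ⟨a, ha, haU⟩ := h {A | ∃ x ∈ s, A = {x}} (by
    intro U hU
    obtain ⟨x, hx, hxs⟩ := hs U hU
    exact ⟨{x}, ⟨x, hxs, rfl⟩, by simpa using hx⟩)
  choose t ht hta using ha
  refine ⟨t, ht, ?_⟩
  intro U hU
  have h1 : ∀ᶠ n in atTop, t n ∈ U := by
    filter_upwards [haU U hU] with n hn
    rw [hta n] at hn
    simpa using hn
  exact h1

theorem IsFUF.frechetUrysohn {X : Type*} [TopologicalSpace X] (h : IsFUF X) :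
    FrechetUrysohnSpace X := by
  refine ⟨fun s x hx => ?_⟩
  obtain ⟨t, ht, htx⟩ := (h x).exists_seq (s := s) (fun U hU => mem_closure_iff_nhds.1 hx U hU)
  exact ⟨t, ht, htx⟩

theorem isFUF_of_one {G : Type*} [Group G] [TopologicalSpace G] [IsTopologicalGroup G]
    (h : FUFFilter (𝓝 (1 : G))) : IsFUF G := by
  intro x
  have := h.map (e := (x * ·)) (mul_right_injective x)
  rwa [map_mul_left_nhds_one] at this

/-! ### The topology -/

/-- The group filter basis of the sets `W ℓ g F n`. -/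
@[reducible] def basis {H : Type*} [Group H] (ℓ : H → ℕ) (hℓ : ∀ g h, ℓ (g * h) ≤ ℓ g + ℓ h) (g : ℕ → H)
    (𝓕 : Filter ℕ) : GroupFilterBasis H where
  sets := {S | ∃ F ∈ 𝓕, ∃ n, S = W ℓ g F n}
  nonempty := ⟨_, univ, univ_mem, 0, rfl⟩
  inter_sets := by
    rintro _ _ ⟨F, hF, n, rfl⟩ ⟨F', hF', n', rfl⟩
    refine ⟨_, ⟨F ∩ F', inter_mem hF hF', max n n', rfl⟩, subset_inter ?_ ?_⟩
    · exact W_mono inter_subset_left (le_max_left _ _)
    · exact W_mono inter_subset_right (le_max_right _ _)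
  one' := by
    rintro _ ⟨F, hF, n, rfl⟩
    exact one_mem_W ℓ g F n
  mul' := by
    rintro _ ⟨F, hF, n, rfl⟩
    exact ⟨_, ⟨F, hF, n + 1, rfl⟩, W_mul ℓ g F n⟩
  inv' := by
    rintro _ ⟨F, hF, n, rfl⟩
    exact ⟨_, ⟨F, hF, n, rfl⟩, fun x hx => W_inv ℓ g F n hx⟩
  conj' := by
    rintro h _ ⟨F, hF, n, rfl⟩
    exact ⟨_, ⟨F, hF, n + ℓ h, rfl⟩, fun x hx => W_conj hℓ g F n h hx⟩

section

variable {H : Type*} [Group H] {ℓ : H → ℕ} {hℓ : ∀ g h, ℓ (g * h) ≤ ℓ g + ℓ h} {g : ℕ → H}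
  {𝓕 : Filter ℕ}

theorem mem_nhds_iff' {S : Set H} :
    S ∈ @nhds H (basis ℓ hℓ g 𝓕).topology 1 ↔ ∃ F ∈ 𝓕, ∃ n, W ℓ g F n ⊆ S := by
  rw [(GroupFilterBasis.nhds_one_hasBasis (basis ℓ hℓ g 𝓕)).mem_iff]
  constructor
  · rintro ⟨_, ⟨F, hF, n, rfl⟩, h⟩
    exact ⟨F, hF, n, h⟩
  · rintro ⟨F, hF, n, h⟩
    exact ⟨_, ⟨F, hF, n, rfl⟩, h⟩

/-- The new topology is FUF at `1`. -/
theorem fuf_one (hFUF : FUFFilter 𝓕) (hne : 𝓕.NeBot) (hfree : ∀ n, {n}ᶜ ∈ 𝓕) :
    FUFFilter (@nhds H (basis ℓ hℓ g 𝓕).topology 1) := by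
  classical
  intro 𝒮 h𝒮
  obtain ⟨t, -, ht⟩ := hFUF.exists_seq (s := univ) (fun U hU => by
    rw [inter_univ]; exact nonempty_of_mem hU)
  -- for each member of the filter and each `k` there is a finite set carrying a member of `𝒮`
  have hA : ∀ F ∈ 𝓕, ∀ k : ℕ, ∃ A : Finset ℕ, (A : Set ℕ) ⊆ F ∧
      ∃ S ∈ 𝒮, (S : Set H) ⊆ W ℓ g (A : Set ℕ) k := by
    intro F hF k
    obtain ⟨S, hS, hSW⟩ := h𝒮 (W ℓ g F k) (mem_nhds_iff'.2 ⟨F, hF, k, Subset.rfl⟩)
    have hex : ∀ s : H, ∃ L : List (H × ℕ × Bool), s ∈ S → ((∀ t ∈ L, t.2.1 ∈ F) ∧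
        wcost ℓ L < (1 / 2) ^ k ∧ wval g L = s) := by
      intro s
      by_cases hs : s ∈ S
      · obtain ⟨L, hL⟩ := hSW hs
        exact ⟨L, fun _ => hL⟩
      · exact ⟨[], fun h => absurd h hs⟩
    choose L hL using hex
    refine ⟨S.biUnion fun s => ((L s).map fun t => t.2.1).toFinset, ?_, S, hS, ?_⟩
    · intro m hm
      simp only [Finset.coe_biUnion, mem_iUnion, Finset.mem_coe, List.mem_toFinset,
        List.mem_map] at hm
      obtain ⟨s, hs, t, ht, rfl⟩ := hm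
      exact (hL s hs).1 t ht
    · intro s hs
      refine ⟨L s, ?_, (hL s hs).2.1, (hL s hs).2.2⟩
      intro t ht
      simp only [Finset.coe_biUnion, mem_iUnion, Finset.mem_coe, List.mem_toFinset,
        List.mem_map]
      exact ⟨s, hs, t, ht, rfl⟩
  obtain ⟨b, hb, hbU⟩ := hFUF {B | ∃ k, ∃ A : Finset ℕ, B = insert (t k) A ∧
      ∃ S ∈ 𝒮, (S : Set H) ⊆ W ℓ g (A : Set ℕ) k} (by
    intro F hF
    have hev : ∀ᶠ k in atTop, t k ∈ F := ht hF
    obtain ⟨k, hk⟩ := hev.exists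
    obtain ⟨A, hAF, hS⟩ := hA F hF k
    refine ⟨insert (t k) A, ⟨k, A, rfl, hS⟩, ?_⟩
    rw [Finset.coe_insert]
    exact insert_subset hk hAF)
  choose k A hbA S hS hSW using hb
  refine ⟨S, hS, fun U hU => ?_⟩
  obtain ⟨F, hF, n, hW⟩ := mem_nhds_iff'.1 hU
  have hFn : (⋂ i ∈ Finset.range n, ({t i}ᶜ : Set ℕ)) ∈ 𝓕 :=
    (Finset.iInter_mem_sets (Finset.range n)).2 fun i _ => hfree (t i)
  filter_upwards [hbU F hF, hbU _ hFn] with j hj1 hj2
  refine (hSW j).trans (Subset.trans ?_ hW)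
  rw [hbA j, Finset.coe_insert] at hj1 hj2
  apply W_mono ((subset_insert _ _).trans hj1)
  by_contra hcon
  push Not at hcon
  have h1 : t (k j) ∈ (⋂ i ∈ Finset.range n, ({t i}ᶜ : Set ℕ)) := hj2 (mem_insert _ _)
  simp only [Finset.mem_range, mem_iInter, mem_compl_iff, mem_singleton_iff] at h1
  exact h1 (k j) hcon rfl

/-- The filter is the pull-back of the neighbourhood filter of `1`. -/
theorem comap_nhds {U : ℕ → Set H} {V : ℕ → Set H} (hF : Fast ℓ U g V)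
    (hfree : ∀ n, {n}ᶜ ∈ 𝓕) :
    Filter.comap g (@nhds H (basis ℓ hℓ g 𝓕).topology 1) = 𝓕 := by
  ext F
  constructor
  · rintro ⟨S, hS, hSF⟩
    obtain ⟨F', hF', n, hW⟩ := mem_nhds_iff'.1 hS
    have hFn : (⋂ i ∈ Finset.range (n + ℓ 1 + 1), ({i}ᶜ : Set ℕ)) ∈ 𝓕 :=
      (Finset.iInter_mem_sets _).2 fun i _ => hfree i
    filter_upwards [hF', hFn] with m hm hmn
    apply hSF
    apply hW
    apply single_mem_W ℓ g F' n m hm
    by_contra hcon
    push Not at hcon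
    simp only [Finset.mem_range, mem_iInter, mem_compl_iff, mem_singleton_iff] at hmn
    exact hmn m (by omega) rfl
  · intro hFF
    exact ⟨W ℓ g F 0, mem_nhds_iff'.2 ⟨F, hFF, 0, Subset.rfl⟩, fun m hm => mem_of_mem_W hF F m hm⟩

theorem U_mem {U : ℕ → Set H} {V : ℕ → Set H} (hF : Fast ℓ U g V) (n : ℕ) :
    U n ∈ @nhds H (basis ℓ hℓ g 𝓕).topology 1 := by
  refine mem_nhds_iff'.2 ⟨univ, univ_mem, n + 1, ?_⟩
  exact (W_subset hF univ (n + 1)).trans ((hF.step n).trans inter_subset_right)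

end

/-- Main construction, for a free filter on `ℕ`. -/
theorem construct {𝓕 : Filter ℕ} (hFUF : FUFFilter 𝓕) (hfree : ∀ n, {n}ᶜ ∈ 𝓕)
    (hcg : ¬ 𝓕.IsCountablyGenerated) (H : Type*) [Group H] [Countable H] (τ : TopologicalSpace H)
    (hτ : @IsTopologicalGroup H τ _) (hT2 : @T2Space H τ) (hnd : ¬ @DiscreteTopology H τ) :
    ∃ σ : TopologicalSpace H, @IsTopologicalGroup H σ _ ∧ @T2Space H σ ∧ @IsFUF H σ ∧
      ¬ @FirstCountableTopology H σ ∧ (@FirstCountableTopology H τ → σ ≤ τ) := by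
  classical
  have hne : 𝓕.NeBot := by
    by_contra hcon
    rw [not_neBot] at hcon
    exact hcg (hcon ▸ inferInstance)
  obtain ⟨ℓ, hℓ, hℓf⟩ := exists_weight H
  obtain ⟨e, he⟩ : ∃ e : ℕ → H, Function.Surjective e := exists_surjective_nat H
  -- neighbourhoods
  obtain ⟨U, hU, hUsep, hUτ⟩ : ∃ U : ℕ → Set H, (∀ n, U n ∈ 𝓝 (1 : H)) ∧
      (∀ n, e n ≠ 1 → e n ∉ U n) ∧
      (FirstCountableTopology H → ∀ S ∈ 𝓝 (1 : H), ∃ n, U n ⊆ S) := by
    by_cases hfc : FirstCountableTopology H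
    · obtain ⟨B, hB⟩ := (𝓝 (1 : H)).exists_antitone_basis
      refine ⟨fun n => B n ∩ (if e n = 1 then univ else {e n}ᶜ), fun n => ?_, fun n hn => ?_,
        fun _ S hS => ?_⟩
      · refine inter_mem (hB.1.mem_of_mem trivial) ?_
        split_ifs with h
        · exact univ_mem
        · exact IsOpen.mem_nhds isOpen_compl_singleton (fun h' => h h'.symm)
      · simp [hn]
      · obtain ⟨n, -, hn⟩ := hB.1.mem_iff.1 hS
        exact ⟨n, inter_subset_left.trans hn⟩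
    · refine ⟨fun n => (if e n = 1 then univ else {e n}ᶜ), fun n => ?_, fun n hn => ?_,
        fun h => absurd h hfc⟩
      · simp only
        split_ifs with h
        · exact univ_mem
        · exact IsOpen.mem_nhds isOpen_compl_singleton (fun h' => h h'.symm)
      · simp [hn]
  obtain ⟨g, V, hF⟩ := exists_fast hnd hℓf U hU
  refine ⟨(basis ℓ hℓ g 𝓕).topology, (basis ℓ hℓ g 𝓕).isTopologicalGroup, ?_, ?_, ?_, ?_⟩
  · letI := (basis ℓ hℓ g 𝓕).topology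
    haveI := (basis ℓ hℓ g 𝓕).isTopologicalGroup
    refine IsTopologicalGroup.t2Space_of_one_sep fun x hx => ?_
    obtain ⟨n, rfl⟩ := he x
    exact ⟨U n, U_mem hF n, hUsep n hx⟩
  · exact @isFUF_of_one H _ (basis ℓ hℓ g 𝓕).topology (basis ℓ hℓ g 𝓕).isTopologicalGroup
      (fuf_one hFUF hne hfree)
  · intro hfc
    letI := (basis ℓ hℓ g 𝓕).topology
    apply hcg
    rw [← comap_nhds (hℓ := hℓ) hF hfree]
    infer_instance
  · intro hfc
    have h1 : @nhds H (basis ℓ hℓ g 𝓕).topology 1 ≤ @nhds H τ 1 := by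
      intro S hS
      obtain ⟨n, hn⟩ := hUτ hfc S hS
      exact mem_of_superset (U_mem hF n) hn
    have h2 := (basis ℓ hℓ g 𝓕).isTopologicalGroup
    refine le_iff_nhds _ _ |>.2 fun x => ?_
    have e1 : Filter.map (x * ·) (@nhds H (basis ℓ hℓ g 𝓕).topology 1) =
        @nhds H (basis ℓ hℓ g 𝓕).topology x := by
      let _ := (basis ℓ hℓ g 𝓕).topology
      exact map_mul_left_nhds_one x
    rw [← map_mul_left_nhds_one (G := H) x]
    rw [← e1]
    exact Filter.map_mono h1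

end Pool.Agent.FUF
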