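import Pool.Agent.FUF.Sparse

/-!
Words in the conjugates of a fast sequence, their cost, and the normal form.
-/

namespace Pool.Agent.FUF

open Set Filter Topology Pointwise

set_option linter.unusedSectionVars false

variable {H : Type*} [Group H]

/-- The value of a letter `(h, m, ε)`: the conjugate by `h` of `g m` or of its inverse. -/
def val (g : ℕ → H) (t : H × ℕ × Bool) : H :=
  t.1 * (if t.2.2 then g t.2.1 else (g t.2.1)⁻¹) * t.1⁻¹

/-- The cost `2 ^ ℓ h / 2 ^ m` of a letter. -/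
noncomputable def cost (ℓ : H → ℕ) (t : H × ℕ × Bool) : ℝ := 2 ^ (ℓ t.1) * (1 / 2) ^ t.2.1

/-- The value of a word. -/
def wval (g : ℕ → H) (L : List (H × ℕ × Bool)) : H := (L.map (val g)).prod

/-- The cost of a word. -/
noncomputable def wcost (ℓ : H → ℕ) (L : List (H × ℕ × Bool)) : ℝ := (L.map (cost ℓ)).sum

theorem cost_pos (ℓ : H → ℕ) (t : H × ℕ × Bool) : 0 < cost ℓ t := by
  unfold cost; positivity

theorem wcost_nonneg (ℓ : H → ℕ) (L : List (H × ℕ × Bool)) : 0 ≤ wcost ℓ L := by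
  unfold wcost
  apply List.sum_nonneg
  intro x hx
  obtain ⟨t, -, rfl⟩ := List.mem_map.1 hx
  exact (cost_pos ℓ t).le

@[simp] theorem wcost_cons (ℓ : H → ℕ) (t) (L : List (H × ℕ × Bool)) :
    wcost ℓ (t :: L) = cost ℓ t + wcost ℓ L := by simp [wcost]

@[simp] theorem wcost_nil (ℓ : H → ℕ) : wcost ℓ ([] : List (H × ℕ × Bool)) = 0 := by simp [wcost]

theorem wcost_append (ℓ : H → ℕ) (L L' : List (H × ℕ × Bool)) :
    wcost ℓ (L ++ L') = wcost ℓ L + wcost ℓ L' := by simp [wcost]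

@[simp] theorem wval_cons (g : ℕ → H) (t) (L : List (H × ℕ × Bool)) :
    wval g (t :: L) = val g t * wval g L := by simp [wval]

@[simp] theorem wval_nil (g : ℕ → H) : wval g ([] : List (H × ℕ × Bool)) = 1 := by simp [wval]

theorem wval_append (g : ℕ → H) (L L' : List (H × ℕ × Bool)) :
    wval g (L ++ L') = wval g L * wval g L' := by simp [wval]

theorem cost_le_wcost (ℓ : H → ℕ) {L : List (H × ℕ × Bool)} {t} (ht : t ∈ L) :
    cost ℓ t ≤ wcost ℓ L := by
  induction L with
  | nil => simp at ht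
  | cons a L ih =>
    rw [wcost_cons]
    rcases List.mem_cons.1 ht with rfl | h
    · linarith [wcost_nonneg ℓ L]
    · linarith [ih h, cost_pos ℓ a]

theorem cost_lt_one (ℓ : H → ℕ) {t : H × ℕ × Bool} (ht : cost ℓ t < 1) : ℓ t.1 < t.2.1 := by
  by_contra hcon
  push Not at hcon
  have h1 : (2 : ℝ) ^ t.2.1 ≤ 2 ^ (ℓ t.1) := pow_le_pow_right₀ (by norm_num) hcon
  have h2 : cost ℓ t = 2 ^ (ℓ t.1) / 2 ^ t.2.1 := by
    unfold cost; rw [one_div, inv_pow]; rfl
  rw [h2, div_lt_one (by positivity)] at ht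
  linarith

theorem half_pow_le_cost (ℓ : H → ℕ) (t : H × ℕ × Bool) : (1 / 2 : ℝ) ^ t.2.1 ≤ cost ℓ t := by
  unfold cost
  have h1 : (1 : ℝ) ≤ 2 ^ (ℓ t.1) := one_le_pow₀ (by norm_num)
  nlinarith [show (0 : ℝ) < (1 / 2) ^ t.2.1 by positivity]

theorem wcost_filter_le (ℓ : H → ℕ) (p : H × ℕ × Bool → Bool) (L : List (H × ℕ × Bool)) :
    wcost ℓ (L.filter p) ≤ wcost ℓ L := by
  induction L with
  | nil => simp
  | cons a L ih =>
    by_cases h : p a
    · rw [List.filter_cons_of_pos h, wcost_cons, wcost_cons]; linarith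
    · rw [List.filter_cons_of_neg h, wcost_cons]; linarith [cost_pos ℓ a]

/-- A word of cost `< 1` with indices `< n` has fewer than `2 ^ n` letters. -/
theorem length_le (ℓ : H → ℕ) (n : ℕ) (L : List (H × ℕ × Bool)) (hL : ∀ t ∈ L, t.2.1 ≤ n) :
    (L.length : ℝ) * (1 / 2) ^ n ≤ wcost ℓ L := by
  induction L with
  | nil => simp
  | cons a L ih =>
    rw [wcost_cons, List.length_cons]
    have h1 := ih fun t ht => hL t (by simp [ht])
    have h2 := half_pow_le_cost ℓ a
    have h3 : (1 / 2 : ℝ) ^ n ≤ (1 / 2) ^ a.2.1 :=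
      pow_le_pow_of_le_one (by norm_num) (by norm_num) (hL a (by simp))
    push_cast
    linarith

theorem length_le' (ℓ : H → ℕ) (n : ℕ) (L : List (H × ℕ × Bool)) (hL : ∀ t ∈ L, t.2.1 ≤ n)
    (hc : wcost ℓ L < 1) : L.length ≤ 2 ^ n := by
  have h1 := length_le ℓ n L hL
  have h2 : (L.length : ℝ) * (1 / 2) ^ n < 1 := lt_of_le_of_lt h1 hc
  have h3 : (L.length : ℝ) < 2 ^ n := by
    rw [one_div, inv_pow] at h2
    rwa [← div_eq_mul_inv, div_lt_one (by positivity)] at h2
  exact_mod_cast h3.le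

theorem val_mem_conj (g : ℕ → H) (t : H × ℕ × Bool) {C : Set H} (h : t.1 ∈ C) :
    val g t ∈ conjSet C (g t.2.1) := by
  unfold val
  by_cases hb : t.2.2
  · exact ⟨t.1, h, Or.inl (by simp [hb])⟩
  · exact ⟨t.1, h, Or.inr (by simp [hb])⟩

/-- The value of a cheap word with indices `< n` lies in `Qset`. -/
theorem wval_mem_Qset (ℓ : H → ℕ) (g : ℕ → H) (n : ℕ) (L : List (H × ℕ × Bool))
    (hL : ∀ t ∈ L, t.2.1 < n) (hc : wcost ℓ L < 1) : wval g L ∈ Qset ℓ (g '' Iio n) n := by
  refine ⟨L.map (val g), ?_, ?_, rfl⟩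
  · rw [List.length_map]
    exact length_le' ℓ n L (fun t ht => (hL t ht).le) hc
  · intro y hy
    obtain ⟨t, ht, rfl⟩ := List.mem_map.1 hy
    have h1 : ℓ t.1 < t.2.1 := cost_lt_one ℓ (lt_of_le_of_lt (cost_le_wcost ℓ ht) hc)
    have h2 := hL t ht
    simp only [mem_iUnion]
    refine ⟨g t.2.1, ⟨t.2.1, h2, rfl⟩, val_mem_conj g t ?_⟩
    show ℓ t.1 ≤ n
    omega

/-- One step of the normal form: letters of index `n` are moved to the right. -/
theorem move_right (ℓ : H → ℕ) (g : ℕ → H) (n : ℕ) (L : List (H × ℕ × Bool))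
    (hL : ∀ t ∈ L, t.2.1 ≤ n) (hc : wcost ℓ L < 1) :
    ∃ C : List H, C.length ≤ L.length ∧ (∀ c ∈ C, c ∈ conjSet (Cset ℓ (g '' Iio n) n) (g n)) ∧
      wval g L = wval g (L.filter fun t => decide (t.2.1 < n)) * C.prod := by
  induction L with
  | nil => exact ⟨[], by simp, by simp, by simp⟩
  | cons a L ih =>
    have hcL : wcost ℓ L < 1 := by
      rw [wcost_cons] at hc; linarith [cost_pos ℓ a]
    obtain ⟨C, h1, h2, h3⟩ := ih (fun t ht => hL t (by simp [ht])) hcL
    by_cases ha : a.2.1 < n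
    · refine ⟨C, by simp only [List.length_cons]; omega, h2, ?_⟩
      rw [List.filter_cons_of_pos (by simpa using ha), wval_cons, wval_cons, h3, mul_assoc]
    · have han : a.2.1 = n := le_antisymm (hL a (by simp)) (not_lt.1 ha)
      have hq : wval g (L.filter fun t => decide (t.2.1 < n)) ∈ Qset ℓ (g '' Iio n) n := by
        apply wval_mem_Qset
        · intro t ht
          simpa using (List.mem_filter.1 ht).2
        · exact lt_of_le_of_lt (wcost_filter_le ℓ _ L) hcL
      refine ⟨((wval g (L.filter fun t => decide (t.2.1 < n)))⁻¹ * val g a *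
        wval g (L.filter fun t => decide (t.2.1 < n))) :: C, ?_, ?_, ?_⟩
      · simp only [List.length_cons]; omega
      · intro c hc'
        rcases List.mem_cons.1 hc' with rfl | h
        · have h4 : ℓ a.1 < a.2.1 := by
            apply cost_lt_one
            rw [wcost_cons] at hc
            linarith [wcost_nonneg ℓ L]
          refine ⟨(wval g (L.filter fun t => decide (t.2.1 < n)))⁻¹ * a.1, ?_, ?_⟩
          · refine ⟨(_, a.1), ⟨hq, ?_⟩, rfl⟩
            show ℓ a.1 ≤ n
            omega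
          · unfold val
            rw [han]
            by_cases hb : a.2.2
            · left; simp only [hb, if_true]; group
            · right; simp only [hb]; group
              simp
        · exact h2 c h
      · rw [List.filter_cons_of_neg (by simpa using ha), wval_cons, h3, List.prod_cons]
        group

/-- The normal form: up to a factor in `V n * V n` one may drop the letters of index `≥ n`. -/
theorem normal_form {ℓ : H → ℕ} {U : ℕ → Set H} {g : ℕ → H} {V : ℕ → Set H}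
    (hF : Fast ℓ U g V) (L : List (H × ℕ × Bool)) (hc : wcost ℓ L < 1) (n : ℕ) :
    ∃ k ∈ V n * V n, wval g L = wval g (L.filter fun t => decide (t.2.1 < n)) * k := by
  obtain ⟨M, hM⟩ : ∃ M, ∀ t ∈ L, t.2.1 < M := by
    refine ⟨(L.map fun t => t.2.1).sum + 1, fun t ht => Nat.lt_succ_of_le ?_⟩
    exact List.single_le_sum (by simp) _ (List.mem_map.2 ⟨t, ht, rfl⟩)
  have key : ∀ d n, M ≤ n + d → ∃ k ∈ V n * V n,
      wval g L = wval g (L.filter fun t => decide (t.2.1 < n)) * k := by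
    intro d
    induction d with
    | zero =>
      intro n hn
      refine ⟨1, ⟨1, hF.one_mem n, 1, hF.one_mem n, by simp⟩, ?_⟩
      rw [mul_one, List.filter_eq_self.2]
      intro t ht
      have := hM t ht
      simp only [decide_eq_true_eq]
      omega
    | succ d ih =>
      intro n hn
      obtain ⟨k, hk, hkL⟩ := ih (n + 1) (by omega)
      obtain ⟨C, h1, h2, h3⟩ := move_right ℓ g n (L.filter fun t => decide (t.2.1 < n + 1))
        (fun t ht => by
          have := (List.mem_filter.1 ht).2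
          simp only [decide_eq_true_eq] at this
          omega) (lt_of_le_of_lt (wcost_filter_le ℓ _ L) hc)
      have h4 : C.prod ∈ V n := by
        apply hF.small n
        refine ⟨C, h1.trans (length_le' ℓ n _ ?_ (lt_of_le_of_lt (wcost_filter_le ℓ _ L) hc)),
          h2, rfl⟩
        intro t ht
        have := (List.mem_filter.1 ht).2
        simp only [decide_eq_true_eq] at this
        omega
      have h5 : k ∈ V n := (hF.step n hk).1
      refine ⟨C.prod * k, ⟨C.prod, h4, k, h5, rfl⟩, ?_⟩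
      rw [hkL, h3, List.filter_filter, mul_assoc]
      congr 3
      funext t
      by_cases h : t.2.1 < n
      · have : t.2.1 < n + 1 := by omega
        simp [h, this]
      · simp [h]
  exact key M n (by omega)

/-- The basic sets. -/
def W (ℓ : H → ℕ) (g : ℕ → H) (F : Set ℕ) (n : ℕ) : Set H :=
  {x | ∃ L : List (H × ℕ × Bool), (∀ t ∈ L, t.2.1 ∈ F) ∧ wcost ℓ L < (1 / 2) ^ n ∧ wval g L = x}

theorem W_mono {ℓ : H → ℕ} {g : ℕ → H} {F F' : Set ℕ} {n n' : ℕ} (hF : F ⊆ F') (hn : n' ≤ n) :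
    W ℓ g F n ⊆ W ℓ g F' n' := by
  rintro x ⟨L, h1, h2, h3⟩
  exact ⟨L, fun t ht => hF (h1 t ht),
    lt_of_lt_of_le h2 (pow_le_pow_of_le_one (by norm_num) (by norm_num) hn), h3⟩

theorem one_mem_W (ℓ : H → ℕ) (g : ℕ → H) (F : Set ℕ) (n : ℕ) : (1 : H) ∈ W ℓ g F n :=
  ⟨[], by simp, by simp, by simp⟩

theorem W_mul (ℓ : H → ℕ) (g : ℕ → H) (F : Set ℕ) (n : ℕ) :
    W ℓ g F (n + 1) * W ℓ g F (n + 1) ⊆ W ℓ g F n := by
  rintro _ ⟨_, ⟨L, h1, h2, rfl⟩, _, ⟨L', h1', h2', rfl⟩, rfl⟩
  refine ⟨L ++ L', ?_, ?_, wval_append g L L'⟩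
  · intro t ht
    rcases List.mem_append.1 ht with h | h
    · exact h1 t h
    · exact h1' t h
  · rw [wcost_append]
    rw [pow_succ] at h2 h2'
    linarith

theorem W_inv (ℓ : H → ℕ) (g : ℕ → H) (F : Set ℕ) (n : ℕ) {x : H} (hx : x ∈ W ℓ g F n) :
    x⁻¹ ∈ W ℓ g F n := by
  obtain ⟨L, h1, h2, rfl⟩ := hx
  refine ⟨(L.map fun t => (t.1, t.2.1, !t.2.2)).reverse, ?_, ?_, ?_⟩
  · intro t ht
    rw [List.mem_reverse] at ht
    obtain ⟨s, hs, rfl⟩ := List.mem_map.1 ht
    exact h1 s hs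
  · unfold wcost at h2 ⊢
    rw [List.map_reverse, List.sum_reverse, List.map_map]
    exact h2
  · unfold wval
    rw [List.prod_inv_reverse, List.map_reverse, List.map_map, List.map_map]
    congr 2
    apply List.map_congr_left
    intro t _
    simp only [Function.comp, val]
    by_cases hb : t.2.2
    · simp [hb, mul_assoc]
    · simp [hb, mul_assoc]

theorem W_conj {ℓ : H → ℕ} (hℓ : ∀ g h, ℓ (g * h) ≤ ℓ g + ℓ h) (g : ℕ → H) (F : Set ℕ) (n : ℕ)
    (h : H) {x : H} (hx : x ∈ W ℓ g F (n + ℓ h)) : h * x * h⁻¹ ∈ W ℓ g F n := by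
  obtain ⟨L, h1, h2, rfl⟩ := hx
  refine ⟨L.map fun t => (h * t.1, t.2.1, t.2.2), ?_, ?_, ?_⟩
  · intro t ht
    obtain ⟨s, hs, rfl⟩ := List.mem_map.1 ht
    exact h1 s hs
  · have h3 : wcost ℓ (L.map fun t => (h * t.1, t.2.1, t.2.2)) ≤ 2 ^ ℓ h * wcost ℓ L := by
      clear h1 h2
      induction L with
      | nil => simp
      | cons a L ih =>
        rw [List.map_cons, wcost_cons, wcost_cons, mul_add]
        refine add_le_add ?_ ih
        unfold cost
        simp only
        rw [← mul_assoc, ← pow_add]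
        gcongr
        · norm_num
        · exact hℓ _ _
    refine lt_of_le_of_lt h3 ?_
    have h4 : (2 : ℝ) ^ ℓ h * (1 / 2) ^ (n + ℓ h) = (1 / 2) ^ n := by
      rw [pow_add, mul_comm, mul_assoc, ← mul_pow]; norm_num
    rw [← h4]
    exact mul_lt_mul_of_pos_left h2 (by positivity)
  · clear h1 h2
    induction L with
    | nil => simp
    | cons a L ih =>
      rw [List.map_cons, wval_cons, wval_cons, ih]
      unfold val
      simp only
      group

/-- `W univ n` is contained in `V n * V n`. -/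
theorem W_subset {ℓ : H → ℕ} {U : ℕ → Set H} {g : ℕ → H} {V : ℕ → Set H}
    (hF : Fast ℓ U g V) (F : Set ℕ) (n : ℕ) : W ℓ g F n ⊆ V n * V n := by
  rintro x ⟨L, -, h2, rfl⟩
  have hn1 : (1 / 2 : ℝ) ^ n ≤ 1 := pow_le_one₀ (by norm_num) (by norm_num)
  obtain ⟨k, hk, hkL⟩ := normal_form hF L (by linarith) n
  have : (L.filter fun t => decide (t.2.1 < n)) = [] := by
    rw [List.filter_eq_nil_iff]
    intro t ht
    simp only [decide_eq_true_eq, not_lt]
    by_contra hcon
    push Not at hcon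
    have h3 := cost_le_wcost ℓ ht
    have h4 := half_pow_le_cost ℓ t
    have h5 : (1 / 2 : ℝ) ^ n ≤ (1 / 2) ^ t.2.1 :=
      pow_le_pow_of_le_one (by norm_num) (by norm_num) hcon.le
    linarith
  rw [this, wval_nil, one_mul] at hkL
  rwa [hkL]

/-- The separation property of the fast sequence. -/
theorem mem_of_mem_W {ℓ : H → ℕ} {U : ℕ → Set H} {g : ℕ → H} {V : ℕ → Set H}
    (hF : Fast ℓ U g V) (F : Set ℕ) (m : ℕ) (hm : g m ∈ W ℓ g F 0) : m ∈ F := by
  by_contra hmF
  obtain ⟨L, h1, h2, h3⟩ := hm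
  rw [pow_zero] at h2
  obtain ⟨k, hk, hkL⟩ := normal_form hF L h2 (m + 1)
  have h4 : (L.filter fun t => decide (t.2.1 < m + 1)) = L.filter fun t => decide (t.2.1 < m) := by
    apply List.filter_congr
    intro t ht
    have h5 : t.2.1 ≠ m := fun h => hmF (h ▸ h1 t ht)
    by_cases h : t.2.1 < m
    · have : t.2.1 < m + 1 := by omega
      simp [h, this]
    · have : ¬ t.2.1 < m + 1 := by omega
      simp [h, this]
  rw [h4] at hkL
  have hq : wval g (L.filter fun t => decide (t.2.1 < m)) ∈ Qset ℓ (g '' Iio m) m := by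
    apply wval_mem_Qset
    · intro t ht
      simpa using (List.mem_filter.1 ht).2
    · exact lt_of_le_of_lt (wcost_filter_le ℓ _ L) h2
  apply hF.sep m _ hq
  rw [← h3, hkL]
  simpa using hk

theorem single_mem_W (ℓ : H → ℕ) (g : ℕ → H) (F : Set ℕ) (n m : ℕ) (hm : m ∈ F)
    (hnm : n + ℓ 1 < m) : g m ∈ W ℓ g F n := by
  refine ⟨[(1, m, true)], ?_, ?_, ?_⟩
  · simpa using hm
  · rw [wcost_cons, wcost_nil, add_zero]
    unfold cost
    simp only
    have h4 : (2 : ℝ) ^ ℓ (1 : H) * (1 / 2) ^ (n + ℓ (1 : H)) = (1 / 2) ^ n := by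
      rw [pow_add, mul_comm, mul_assoc, ← mul_pow]; norm_num
    rw [← h4]
    refine mul_lt_mul_of_pos_left ?_ (by positivity)
    exact pow_lt_pow_right_of_lt_one₀ (by norm_num) (by norm_num) hnm
  · simp [wval, val]

end Pool.Agent.FUF
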